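import Pool.Agent.Mg.Fa0c272.G5581c4

namespace Pool.Agent.Results.MP_a0c272_an.Unbounded

open Pool.Agent.MP_a0c272_an Set Function OnePoint

/-- For every `N` there is a post-critically finite quadratic polynomial `p` with more than `N`
pairwise non-isotopic spanning trees for `P(p)` that are all invariant for one map
`p ∘ Ψ₁`, where `Ψ` is an isotopy from the identity relative to `P(p)`. -/
theorem result (N : ℕ) : ∃ c : ℂ, (postcrit (quad c)).Finite ∧
    ∃ Ψ : C(unitInterval × Sph, Sph), IsIsotopyRel (postcrit (quad c)) Ψ ∧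
      (∀ t, postcrit (fun x => quad c (Ψ (t, x))) = postcrit (quad c)) ∧
      ∃ T : Fin (N + 1) → Graph,
        (∀ i, (T i).IsSpanningTree (postcrit (quad c)) ∧
          (T i).IsInvariant fun x => quad c (Ψ (1, x))) ∧
        ∀ i j, i ≠ j → ¬ Isotopic (postcrit (quad c)) (T i) (T j) ∧
          ¬ HomeoRel (postcrit (quad c)) (T i) (T j) := by
  obtain ⟨c, M, hM, hcrit, hlev⟩ := exists_levels (N + 1) (by omega)
  choose a x τ hL using fun j : Fin (N + 1) => hlev j j.2
  set z : ℕ → ℝ := fun k => (q c)^[k] c with hz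
  have hpos : ∀ j : Fin (N + 1), 0 < 3 ^ (j : ℕ) := fun j => by positivity
  have hzfin : (range z).Finite := by
    refine periodic_finite hM fun k => ?_
    have : (q c)^[M] c = c := by
      rw [show M = M - 1 + 1 by omega, iterate_succ_apply', hcrit]; simp [q]
    simp only [hz, iterate_add_apply, this]
  have hstep : ∀ k, z (k + 1) = z k ^ 2 + c := fun k => iterate_succ_apply' _ _ _
  obtain ⟨δ, hδ, hδx⟩ : ∃ δ : ℝ, 0 < δ ∧ ∀ j i, δ ≤ |x j i| := by
    obtain ⟨y, hy, hmin⟩ := exists_min_image (⋃ j, range (x j)) (fun y => |y|)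
      (finite_iUnion fun j => periodic_finite (hpos j) (hL j).px)
      ⟨x 0 0, mem_iUnion.2 ⟨0, 0, rfl⟩⟩
    obtain ⟨j, i, rfl⟩ := mem_iUnion.1 hy
    refine ⟨|x j i|, abs_pos.2 ?_, fun j' i' => hmin _ (mem_iUnion.2 ⟨j', i', rfl⟩)⟩
    rw [← hcrit]; exact (hL j).x_ne i (M - 1)
  set P : Set Sph := insert ∞ (range fun k => ((z k : ℂ) : Sph)) with hP
  have hZfin : (range fun k => ((z k : ℂ) : Sph)).Finite :=
    (hzfin.image fun r : ℝ => ((r : ℂ) : Sph)).subset (by
      rintro _ ⟨k, rfl⟩; exact ⟨_, ⟨k, rfl⟩, rfl⟩)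
  have hP0 : postcrit (quad c) = P :=
    postcrit_eq hZfin (critVal_quad c) (fun k => by rw [quad_real, hstep]) rfl
  have hPt : ∀ t, postcrit (fun y => quad c (Psi hδ (t, y))) = P := fun t =>
    postcrit_eq hZfin ((critVal_comp _ (Psi_homeo hδ t)).trans (critVal_quad c))
      (fun k => by simp only [Psi_real, quad_real, hstep]) rfl
  choose T hTV hTc using fun j => (hL j).tree (hpos j) hzfin
  have hPT : ∀ j, P ⊆ (T j).carrier := fun j => by
    rw [hP, ← hTV j]; exact subset_union_left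
  refine ⟨c, hP0 ▸ hZfin.insert _, Psi hδ, ?_, fun t => (hPt t).trans hP0.symm, T, fun j => ?_,
    fun i j hij => ?_⟩
  · refine ⟨Psi_homeo hδ, Psi_zero hδ, fun t y hy => ?_⟩
    rw [hP0] at hy
    rcases hy with rfl | ⟨k, rfl⟩
    · rfl
    · exact Psi_real hδ t _
  · rw [hP0]
    refine ⟨⟨?_, (hTV j).ge, fun y hy hy' => absurd ((hTV j).le hy) hy'⟩, ?_, ?_⟩
    · rw [hTc]
      have := ((hL j).star (hpos j)).contractible
      exact SimplyConnectedSpace.ofContractible _
    · rw [hTc]; exact (hL j).invariant (hpos j) hδ (hδx j)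
    · rw [hTV]
      rintro _ (rfl | ⟨k, rfl⟩)
      · exact Or.inl rfl
      · exact Or.inr ⟨k + 1, by simp only [Psi_real, quad_real, hstep]⟩
  · rw [hP0]
    have key : ¬ HomeoRel P (T i) (T j) := by
      intro hr
      have h1 := card_le_of_homeoRel ((hL i).star (hpos i)) ((hL j).star (hpos j)) (Or.inl rfl)
        (hTc i) (hTc j) hr
      have h2 := card_le_of_homeoRel ((hL j).star (hpos j)) ((hL i).star (hpos i)) (Or.inl rfl)
        (hTc j) (hTc i) (hr.symm (hPT i))
      exact hij (Fin.ext (Nat.pow_right_injective (by norm_num : 2 ≤ 3) (le_antisymm h2 h1)))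
    exact ⟨fun h => key h.homeoRel, key⟩

end Pool.Agent.Results.MP_a0c272_an.Unbounded
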